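import Mathlib

namespace Pool.Agent.Results.MP_7488b5_nt.Counter
open Polynomial

variable {F : Type} [Field F] [Fintype F]

/-- The absolute value of a Laurent series in the variable `1 / T`. -/
noncomputable def av (x : LaurentSeries F) : ℝ :=
  open Classical in if x = 0 then 0 else (Fintype.card F : ℝ) ^ (-x.order)

/-- The embedding of `F[T]` in the Laurent series in `1 / T`. -/
noncomputable def emb : F[X] →+* LaurentSeries F :=
  eval₂RingHom HahnSeries.C (HahnSeries.single (-1) 1)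

/-- The height of a polynomial with coefficients in `F[T]`. -/
noncomputable def hgt (P : F[X][X]) : ℝ := ⨆ i : ℕ, av (emb (P.coeff i))

/-- `P` is a minimal defining polynomial of `x` over `F[T]`. -/
def IsMin (P : F[X][X]) (x : LaurentSeries F) : Prop := Irreducible P ∧ P.eval₂ emb x = 0

/-- The uniform exponent of approximation by algebraic series of degree at most `n`. -/
noncomputable def whatStar (n : ℕ) (x : LaurentSeries F) : EReal :=
  sSup {w : EReal | ∃ r : ℝ, w = r ∧ ∃ H0 : ℝ, ∀ H > H0, ∃ (a : LaurentSeries F) (P : F[X][X]),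
    IsMin P a ∧ P.natDegree ≤ n ∧ hgt P ≤ H ∧ 0 < av (x - a) ∧
      av (x - a) < (hgt P)⁻¹ * H ^ (-r)}

instance : Fact (Nat.Prime 7) := ⟨by norm_num⟩

lemma q1 : (1 : ℝ) ≤ Fintype.card F := by exact_mod_cast Fintype.card_pos

lemma av_nonneg (x : LaurentSeries F) : 0 ≤ av x := by
  unfold av; split_ifs
  · exact le_rfl
  · positivity

lemma av_pos {x : LaurentSeries F} (h : x ≠ 0) : 0 < av x := by
  have := q1 (F := F)
  unfold av; rw [if_neg h]; positivity

lemma av_zero : av (0 : LaurentSeries F) = 0 := by simp [av]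

lemma av_mul (x y : LaurentSeries F) : av (x * y) = av x * av y := by
  have := q1 (F := F)
  by_cases hx : x = 0
  · simp [hx, av_zero]
  by_cases hy : y = 0
  · simp [hy, av_zero]
  unfold av
  rw [if_neg hx, if_neg hy, if_neg (mul_ne_zero hx hy), HahnSeries.order_mul hx hy, neg_add,
    zpow_add₀ (by linarith)]

lemma av_neg (x : LaurentSeries F) : av (-x) = av x := by
  by_cases hx : x = 0
  · simp [hx]
  · unfold av; rw [if_neg hx, if_neg (neg_ne_zero.2 hx), HahnSeries.order_neg]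

lemma av_sub_comm (x y : LaurentSeries F) : av (x - y) = av (y - x) := by
  rw [← av_neg, neg_sub]

lemma av_add {x y : LaurentSeries F} {c : ℝ} (hx : av x ≤ c) (hy : av y ≤ c) :
    av (x + y) ≤ c := by
  by_cases h0 : x + y = 0
  · rw [h0, av_zero]; exact (av_nonneg x).trans hx
  by_cases h1 : x = 0
  · simpa [h1] using hy
  by_cases h2 : y = 0
  · simpa [h2] using hx
  have h := HahnSeries.min_order_le_order_add h0
  unfold av at *
  rw [if_neg h1] at hx
  rw [if_neg h2] at hy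
  rw [if_neg h0]
  rcases min_le_iff.1 h with h | h
  · exact (zpow_le_zpow_right₀ q1 (by linarith)).trans hx
  · exact (zpow_le_zpow_right₀ q1 (by linarith)).trans hy

lemma av_sub {x y : LaurentSeries F} {c : ℝ} (hx : av x ≤ c) (hy : av y ≤ c) :
    av (x - y) ≤ c := by
  rw [sub_eq_add_neg]; exact av_add hx (by rwa [av_neg])

lemma av_single (n : ℤ) : av (HahnSeries.single n (1 : F)) = (Fintype.card F : ℝ) ^ (-n) := by
  unfold av
  rw [if_neg (HahnSeries.single_ne_zero one_ne_zero), HahnSeries.order_single one_ne_zero]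

lemma av_pow (x : LaurentSeries F) (n : ℕ) : av (x ^ n) = av x ^ n := by
  induction n with
  | zero =>
    have := av_single (F := F) 0
    simpa using this
  | succ n ih => rw [pow_succ, av_mul, ih, pow_succ]

omit [Fintype F] in
lemma emb_X_pow (n : ℕ) : emb ((X : F[X]) ^ n) = HahnSeries.single (-(n : ℤ)) 1 := by
  simp [emb, HahnSeries.single_pow]

omit [Fintype F] in
lemma emb_coeff (p : F[X]) (n : ℕ) : (emb p).coeff (-(n : ℤ)) = p.coeff n := by
  induction p using Polynomial.induction_on' with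
  | add p q hp hq => rw [map_add, HahnSeries.coeff_add, hp, hq, coeff_add]
  | monomial m a =>
    have : emb (monomial m a) = HahnSeries.single (-(m : ℤ)) a := by
      rw [← C_mul_X_pow_eq_monomial, map_mul, emb_X_pow]
      simp [emb, HahnSeries.C_apply, HahnSeries.single_mul_single]
    rw [this, coeff_monomial, HahnSeries.coeff_single]
    by_cases h : m = n
    · simp [h]
    · rw [if_neg h, if_neg (by omega)]

omit [Fintype F] in
lemma emb_ne {p : F[X]} (hp : p ≠ 0) : emb p ≠ 0 ∧ (emb p).order ≤ 0 := by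
  have h : (emb p).coeff (-(p.natDegree : ℤ)) ≠ 0 := by
    rw [emb_coeff]; exact leadingCoeff_ne_zero.2 hp
  refine ⟨fun h0 => by simp [h0] at h, (HahnSeries.order_le_of_coeff_ne_zero h).trans (by omega)⟩

lemma av_emb {p : F[X]} (hp : emb p ≠ 0) : 1 ≤ av (emb p) := by
  have hp' : p ≠ 0 := fun h => by simp [h] at hp
  unfold av
  rw [if_neg hp]
  exact one_le_zpow₀ q1 (by linarith [(emb_ne hp').2])

lemma le_hgt (P : F[X][X]) (i : ℕ) : av (emb (P.coeff i)) ≤ hgt P := by
  refine le_ciSup (f := fun i => av (emb (P.coeff i))) ⟨∑ j ∈ P.support, av (emb (P.coeff j)), ?_⟩ i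
  rintro _ ⟨j, rfl⟩
  by_cases hj : j ∈ P.support
  · exact Finset.single_le_sum (f := fun j => av (emb (P.coeff j))) (fun _ _ => av_nonneg _) hj
  · rw [notMem_support_iff] at hj
    simp only [hj, map_zero, av_zero]
    exact Finset.sum_nonneg fun _ _ => av_nonneg _

lemma one_le_hgt {P : F[X][X]} (hP : P ≠ 0) : 1 ≤ hgt P :=
  (av_emb (emb_ne (leadingCoeff_ne_zero.2 hP)).1).trans (le_hgt P _)

lemma liou {P : F[X][X]} (hP : P ≠ 0) (hd : P.natDegree ≤ 2) {a x : LaurentSeries F}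
    (ha : P.eval₂ emb a = 0) (hne : a ≠ x) (h1 : av a ≤ 1) (h2 : av x ≤ 1) (N : ℕ) (p : F[X])
    (hp : emb (X ^ N) * x = emb p) :
    1 ≤ av (a - x) * hgt P * ((Fintype.card F : ℝ) ^ N) ^ 2 := by
  have hq := q1 (F := F)
  have ev : ∀ y : LaurentSeries F, P.eval₂ emb y =
      emb (P.coeff 2) * y ^ 2 + emb (P.coeff 1) * y + emb (P.coeff 0) := fun y => by
    rw [eval₂_eq_sum_range' emb (show P.natDegree < 3 by omega)]
    simp [Finset.sum_range_succ]; ring
  have hQ : av (emb ((X : F[X]) ^ N)) = (Fintype.card F : ℝ) ^ N := by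
    rw [emb_X_pow, av_single]; simp
  have hQ0 : emb ((X : F[X]) ^ N) ≠ 0 := (emb_ne (pow_ne_zero _ X_ne_zero)).1
  have hu : 1 ≤ (Fintype.card F : ℝ) ^ N := one_le_pow₀ hq
  have hA := le_hgt P 2
  have hB := le_hgt P 1
  have h0 := one_le_hgt hP
  rw [ev] at ha
  have hax : a - x ≠ 0 := sub_ne_zero.2 hne
  have hav := av_nonneg (a - x)
  by_cases hz : emb (P.coeff 2) * (x + a) + emb (P.coeff 1) = 0
  · have hA0 : emb (P.coeff 2) ≠ 0 := by
      intro hA0
      rw [hA0, zero_mul, zero_add] at hz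
      rw [hA0, hz] at ha
      simp only [zero_mul, zero_add] at ha
      apply hP
      ext1 i
      have z : ∀ j, emb (P.coeff j) = 0 → P.coeff j = 0 := fun j hj => by
        by_contra hc; exact (emb_ne hc).1 hj
      rcases Nat.lt_or_ge 2 i with hi | hi
      · exact coeff_eq_zero_of_natDegree_lt (by omega)
      · interval_cases i
        · exact z _ ha
        · exact z _ hz
        · exact z _ hA0
    have e1 : emb (P.coeff 2) * (a - x) * emb (X ^ N) =
        emb (-(P.coeff 1 * X ^ N + 2 * P.coeff 2 * p)) := by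
      simp only [map_neg, map_add, map_mul, map_ofNat, ← hp]
      linear_combination emb ((X : F[X]) ^ N) * hz
    have h3 := av_emb (p := -(P.coeff 1 * X ^ N + 2 * P.coeff 2 * p))
      (by rw [← e1]; exact mul_ne_zero (mul_ne_zero hA0 hax) hQ0)
    rw [← e1, av_mul, av_mul, hQ] at h3
    calc (1 : ℝ) ≤ _ := h3
      _ ≤ hgt P * av (a - x) * ((Fintype.card F : ℝ) ^ N) ^ 2 := by
        have : (Fintype.card F : ℝ) ^ N ≤ ((Fintype.card F : ℝ) ^ N) ^ 2 := by nlinarith
        gcongr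
      _ = _ := by ring
  · have e1 : -(a - x) * (emb (P.coeff 2) * (x + a) + emb (P.coeff 1)) * emb (X ^ N) ^ 2 =
        emb (P.coeff 2 * p ^ 2 + P.coeff 1 * p * X ^ N + P.coeff 0 * (X ^ N) ^ 2) := by
      simp only [map_add, map_mul, map_pow emb p, map_pow emb (X ^ N), ← hp]
      linear_combination (-emb ((X : F[X]) ^ N) ^ 2) * ha
    have h3 := av_emb (p := P.coeff 2 * p ^ 2 + P.coeff 1 * p * X ^ N + P.coeff 0 * (X ^ N) ^ 2)
      (by rw [← e1]; exact mul_ne_zero (mul_ne_zero (neg_ne_zero.2 hax) hz) (pow_ne_zero _ hQ0))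
    rw [← e1, av_mul, av_mul, av_neg, av_pow, hQ] at h3
    have h4 : av (emb (P.coeff 2) * (x + a) + emb (P.coeff 1)) ≤ hgt P := by
      refine av_add ?_ hB
      rw [av_mul]
      calc _ ≤ hgt P * 1 := mul_le_mul hA (av_add h2 h1) (av_nonneg _) (by linarith)
        _ = _ := mul_one _
    refine h3.trans ?_
    gcongr

open Classical in
/-- Tails of the series of Mahler. -/
noncomputable def tail (k : ℕ) : LaurentSeries (ZMod 7) :=
  HahnSeries.ofSuppBddBelow (fun n : ℤ => if ∃ i : ℕ, k ≤ i ∧ n = 7 ^ i then 1 else 0)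
    ⟨0, fun n hn => by
      by_contra hc
      apply hn
      refine if_neg ?_
      rintro ⟨i, -, rfl⟩
      exact hc (by positivity)⟩

lemma tail_succ (k : ℕ) : tail k = HahnSeries.single (7 ^ k) 1 + tail (k + 1) := by
  ext n
  simp only [tail, HahnSeries.coeff_add, HahnSeries.coeff_ofSuppBddBelow, HahnSeries.coeff_single]
  by_cases h : n = 7 ^ k
  · rw [if_pos ⟨k, le_rfl, h⟩, if_pos h, if_neg, add_zero]
    rintro ⟨i, hi, h'⟩
    have := (pow_right_injective₀ (by norm_num : (0 : ℤ) < 7) (by norm_num)) (h.symm.trans h')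
    omega
  · rw [if_neg h, zero_add]
    congr 1
    refine propext ⟨?_, ?_⟩
    · rintro ⟨i, hi, h'⟩
      refine ⟨i, ?_, h'⟩
      rcases Nat.eq_or_lt_of_le hi with rfl | h2
      · exact absurd h' h
      · exact h2
    · rintro ⟨i, hi, h'⟩
      exact ⟨i, by omega, h'⟩

lemma tail_av (k : ℕ) : tail k ≠ 0 ∧ av (tail k) = ((7 : ℝ) ^ (7 ^ k))⁻¹ := by
  have h1 : (tail k).coeff (7 ^ k) ≠ 0 := by
    simp only [tail, HahnSeries.coeff_ofSuppBddBelow]
    rw [if_pos ⟨k, le_rfl, rfl⟩]; exact one_ne_zero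
  have h0 : tail k ≠ 0 := fun h => by simp [h] at h1
  refine ⟨h0, ?_⟩
  have h2 : (tail k).order = 7 ^ k := by
    refine le_antisymm (HahnSeries.order_le_of_coeff_ne_zero h1) ?_
    rw [HahnSeries.le_order_iff_forall h0]
    intro j hj
    simp only [tail, HahnSeries.coeff_ofSuppBddBelow]
    rw [if_neg]
    rintro ⟨i, hi, rfl⟩
    exact absurd (pow_le_pow_right₀ (by norm_num : (1 : ℤ) ≤ 7) hi) (not_le.2 hj)
  unfold av
  rw [if_neg h0, h2, ZMod.card, zpow_neg]
  congr 1

lemma tail_le (k : ℕ) : av (tail k) ≤ 1 := by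
  rw [(tail_av k).2]
  exact inv_le_one_of_one_le₀ (one_le_pow₀ (by norm_num))

lemma big (c : ℝ) : ∃ k : ℕ, c < (7 : ℝ) ^ (7 ^ k) := by
  obtain ⟨k, hk⟩ := pow_unbounded_of_one_lt c (by norm_num : (1 : ℝ) < 7)
  exact ⟨k, hk.trans_le (pow_le_pow_right₀ (by norm_num) (Nat.lt_pow_self (by norm_num)).le)⟩

lemma frob : tail 0 ^ 7 = tail 1 := by
  have : CharP (LaurentSeries (ZMod 7)) 7 :=
    charP_of_injective_ringHom (f := HahnSeries.C) HahnSeries.C_injective 7
  have h1 : ∀ k, tail 0 ^ 7 - tail 1 = tail k ^ 7 - tail (k + 1) := fun k => by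
    induction k with
    | zero => rfl
    | succ k ih =>
      rw [ih, tail_succ k, add_pow_char, HahnSeries.single_pow, tail_succ (k + 1)]
      have : (7 : ℕ) • (7 : ℤ) ^ k = 7 ^ (k + 1) := by simp; ring
      rw [this, one_pow, ← tail_succ (k + 1)]
      nth_rewrite 2 [tail_succ (k + 1)]
      ring
  by_contra hc
  have h2 := av_pos (sub_ne_zero.2 hc)
  obtain ⟨k, hk⟩ := big (av (tail 0 ^ 7 - tail 1))⁻¹
  have h3 : av (tail k ^ 7 - tail (k + 1)) ≤ ((7 : ℝ) ^ (7 ^ k))⁻¹ := by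
    refine av_sub ?_ ?_
    · rw [av_pow, ← (tail_av k).2]
      exact pow_le_of_le_one (av_nonneg _) (tail_le k) (by norm_num)
    · rw [(tail_av _).2]
      exact inv_anti₀ (by positivity)
        (pow_le_pow_right₀ (by norm_num) (Nat.pow_le_pow_right (by norm_num) (by omega)))
  rw [← h1] at h3
  have := inv_strictAnti₀ (by positivity) hk
  rw [inv_inv] at this
  linarith

lemma appr (k : ℕ) : ∃ p : (ZMod 7)[X], emb (X ^ (7 ^ k)) * (tail 0 - tail (k + 1)) = emb p := by
  have h : ∀ k : ℕ, emb ((X : (ZMod 7)[X]) ^ (7 ^ k)) * HahnSeries.single (7 ^ k) 1 = 1 := by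
    intro k
    rw [emb_X_pow, HahnSeries.single_mul_single]; simp
  induction k with
  | zero =>
    refine ⟨1, ?_⟩
    rw [map_one, ← h 0]
    nth_rewrite 1 [tail_succ 0]
    ring
  | succ k ih =>
    obtain ⟨p, hp⟩ := ih
    refine ⟨X ^ (7 ^ (k + 1) - 7 ^ k) * p + 1, ?_⟩
    have e : (X : (ZMod 7)[X]) ^ (7 ^ (k + 1)) = X ^ (7 ^ (k + 1) - 7 ^ k) * X ^ (7 ^ k) := by
      rw [← pow_add, Nat.sub_add_cancel (Nat.pow_le_pow_right (by norm_num) (by omega))]
    rw [map_add, map_mul, map_one, ← hp, ← h (k + 1), ← mul_assoc, ← map_mul, ← e]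
    nth_rewrite 1 [tail_succ (k + 1)]
    ring

lemma av_tail' (k : ℕ) : av (tail (k + 1)) = (((7 : ℝ) ^ (7 ^ k)) ^ 7)⁻¹ := by
  rw [(tail_av _).2, ← pow_mul, pow_succ]

lemma nodeg {P : (ZMod 7)[X][X]} (hP : P ≠ 0) (h : P.eval₂ emb (tail 0) = 0) :
    2 < P.natDegree := by
  by_contra hc
  obtain ⟨k, hk⟩ := big (hgt P)
  obtain ⟨p, hp⟩ := appr k
  have h1 := liou hP (not_lt.1 hc) h (x := tail 0 - tail (k + 1))
    (fun h => (tail_av (k + 1)).1 (by linear_combination h)) (tail_le 0)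
    (av_sub (tail_le _) (tail_le _)) _ p hp
  rw [sub_sub_cancel, av_tail', ZMod.card] at h1
  push_cast at h1
  set u : ℝ := 7 ^ 7 ^ k
  have hu : 1 ≤ u := one_le_pow₀ (by norm_num)
  have h2 : (u ^ 7)⁻¹ * hgt P * u ^ 2 < (u ^ 7)⁻¹ * u * u ^ 2 := by gcongr
  have h3 : (u ^ 7)⁻¹ * u * u ^ 2 = (u ^ 4)⁻¹ := by field_simp
  have h4 : (u ^ 4)⁻¹ ≤ 1 := inv_le_one_of_one_le₀ (one_le_pow₀ hu)
  linarith

omit [Fintype F] in
lemma exmin (x : LaurentSeries F) (P : F[X][X]) :
    P ≠ 0 → P.eval₂ emb x = 0 → ∃ Q, IsMin Q x := by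
  refine WfDvdMonoid.induction_on_irreducible P (fun h => absurd rfl h) ?_ ?_
  · intro u hu _ h
    exact absurd h (hu.map (eval₂RingHom emb x)).ne_zero
  · intro a i ha hi ih _ h
    rw [eval₂_mul] at h
    rcases mul_eq_zero.1 h with h | h
    · exact ⟨i, hi, h⟩
    · exact ih ha h

theorem result : ∃ x : LaurentSeries (ZMod 7),
    (∃ P : (ZMod 7)[X][X], IsMin P x ∧ 2 < P.natDegree) ∧
      whatStar 2 x ≤ ((7 / 4 : ℝ) : EReal) ∧ whatStar 2 x ≠ 2 := by
  have main : whatStar 2 (tail 0) ≤ ((7 / 4 : ℝ) : EReal) := by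
    refine sSup_le ?_
    rintro _ ⟨r, rfl, H0, hH⟩
    rw [EReal.coe_le_coe_iff]
    by_contra hr
    obtain ⟨k, hk⟩ := big H0
    obtain ⟨p, hp⟩ := appr k
    have ht := av_tail' k
    set u : ℝ := 7 ^ 7 ^ k with hu
    have hu1 : 1 < u := one_lt_pow₀ (by norm_num) (by positivity)
    have hu4 : u ≤ u ^ 4 := le_self_pow₀ hu1.le (by norm_num)
    obtain ⟨a, P, ⟨hi, ha⟩, hd, hh, -, he⟩ := hH (u ^ 4) (hk.trans_le hu4)
    have h0 := one_le_hgt hi.ne_zero
    have h1 : (u ^ 4) ^ (-r) ≤ (u ^ 7)⁻¹ := by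
      rw [← Real.rpow_natCast u 4, ← Real.rpow_mul (by linarith), ← Real.rpow_natCast u 7,
        ← Real.rpow_neg (by linarith)]
      refine Real.rpow_le_rpow_of_exponent_le hu1.le ?_
      push_cast; linarith
    have h2 : av (tail 0 - a) < (u ^ 7)⁻¹ := by
      refine he.trans_le ?_
      calc (hgt P)⁻¹ * (u ^ 4) ^ (-r) ≤ 1 * (u ^ 7)⁻¹ :=
            mul_le_mul (inv_le_one_of_one_le₀ h0) h1 (by positivity) (by norm_num)
        _ = _ := one_mul _
    have h7 : (u ^ 7)⁻¹ ≤ 1 := inv_le_one_of_one_le₀ (one_le_pow₀ hu1.le)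
    have hne : a ≠ tail 0 - tail (k + 1) := by
      rintro rfl
      rw [sub_sub_cancel, ht] at h2
      exact lt_irrefl _ h2
    have ha1 : av a ≤ 1 := by
      have := av_sub (tail_le 0) (h2.le.trans h7)
      rwa [sub_sub_cancel] at this
    have h3 := liou hi.ne_zero hd ha hne ha1 (av_sub (tail_le _) (tail_le _)) _ p hp
    have h4 : av (a - (tail 0 - tail (k + 1))) ≤ (u ^ 7)⁻¹ := by
      have := av_sub ht.le h2.le
      rwa [show tail (k + 1) - (tail 0 - a) = a - (tail 0 - tail (k + 1)) by ring] at this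
    rw [ZMod.card] at h3
    push_cast at h3
    rw [← hu] at h3
    have h5 : av (a - (tail 0 - tail (k + 1))) * hgt P * u ^ 2 ≤ (u ^ 7)⁻¹ * u ^ 4 * u ^ 2 := by
      gcongr
    have h6 : (u ^ 7)⁻¹ * u ^ 4 * u ^ 2 = u⁻¹ := by field_simp
    have h8 : u⁻¹ < 1 := inv_lt_one_of_one_lt₀ hu1
    linarith
  refine ⟨tail 0, ?_, main, fun h => ?_⟩
  · obtain ⟨Q, hQ⟩ := exmin (tail 0) (C X * X ^ 7 - C X * X + 1) (fun h => by
      have := congrArg (fun P => P.coeff 0) h
      simp at this) (by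
      have e : emb (X : (ZMod 7)[X]) * HahnSeries.single (7 ^ 0) 1 = 1 := by
        have := emb_X_pow (F := ZMod 7) 1
        rw [pow_one] at this
        rw [this, HahnSeries.single_mul_single]; simp
      simp only [eval₂_add, eval₂_sub, eval₂_mul, eval₂_C, eval₂_X_pow, eval₂_X, eval₂_one]
      rw [frob, ← e]
      nth_rewrite 1 [tail_succ 0]
      ring)
    exact ⟨Q, hQ, nodeg hQ.1.ne_zero hQ.2⟩
  · rw [h] at main
    have : ((2 : ℝ) : EReal) ≤ ((7 / 4 : ℝ) : EReal) := main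
    rw [EReal.coe_le_coe_iff] at this
    linarith

end Pool.Agent.Results.MP_7488b5_nt.Counter
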